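import Pool.Agent.Run7.h896.CF.Main2
import Pool.Agent.Run7.h172.Nls.Log

/-!
# Disjointness from the Möbius function for endomorphisms which are compact modulo simple systems in each
irreducible representation (MP_7a8f48_an)

The hypothesis concerns the irreducible representations only, and does not involve the Möbius function.
It holds for all elements if `A` is a CCR algebra and each `π` in its spectrum has a finite orbit, or satisfies
`‖π(αⁿ a)‖ → 0` for all `a`; and if `A` has an invariant CCR ideal `J` with this property and the orbits of `α` in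
`A / J` are relatively compact, for example if `α` acts trivially on `A / J`, as every inner automorphism does when
`A / J` is commutative.
-/

set_option autoImplicit false

open Filter Topology Finset

namespace Pool.Agent.Results.MP_7a8f48_an.CompactFibres

/-- the Möbius function -/
noncomputable def mu (n : ℕ) : ℂ := ((ArithmeticFunction.moebius n : ℤ) : ℂ)

/-- the Liouville function -/
noncomputable def lam (n : ℕ) : ℂ := (-1) ^ ArithmeticFunction.cardFactors n

section defs

variable {A : Type} [NonUnitalCStarAlgebra A]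
variable {K : Type} [NormedAddCommGroup K] [InnerProductSpace ℂ K] [CompleteSpace K]

/-- the representation `π` of `A` on the Hilbert space `K` is irreducible: it is not zero, and its commutant
consists of the scalars -/
def Irreducible (π : A →⋆ₙₐ[ℂ] (K →L[ℂ] K)) : Prop :=
  (∃ a, π a ≠ 0) ∧ ∀ T : K →L[ℂ] K, (∀ a, T * π a = π a * T) → ∃ c : ℂ, T = c • 1

/-- `E` is a closed set, and the numbers `t` with `exp(2 π i t)` in `E` form a Lebesgue null set -/
def NullSet (E : Set ℂ) : Prop :=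
  IsClosed E ∧ MeasureTheory.volume {t : ℝ | Complex.exp (2 * Real.pi * Complex.I * t) ∈ E} = 0

/-- `π ∘ α^q` is unitarily equivalent to `π` for some `q ≥ 1` -/
def FiniteOrbit (α : A →⋆ₙₐ[ℂ] A) (π : A →⋆ₙₐ[ℂ] (K →L[ℂ] K)) : Prop :=
  ∃ (q : ℕ) (V : K ≃ₗᵢ[ℂ] K), 0 < q ∧ ∀ (a : A) (ξ : K), V (π ((⇑α)^[q] a) ξ) = π a (V ξ)

/-- The element `y` is elementary for the representation `π`: either there are a unitary `Z` and an operator `T` with
`‖π(αⁿ y) - Zⁿ T‖ → 0`; or there are unitaries `Z n` with spectra in one null set such that the operators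
`D n i = π(αⁿ⁺ⁱ y) - (Z n)ⁱ π(αⁿ y)` satisfy `‖D n i‖ → 0` as `n → ∞`, for each `i`; or there are such unitaries such
that all `D n i` are compact, and `π` has a finite orbit. -/
def Elementary (α : A →⋆ₙₐ[ℂ] A) (π : A →⋆ₙₐ[ℂ] (K →L[ℂ] K)) (y : A) : Prop :=
  (∃ Z T : K →L[ℂ] K, Z ∈ unitary (K →L[ℂ] K) ∧
    Tendsto (fun n : ℕ => ‖π ((⇑α)^[n] y) - Z ^ n * T‖) atTop (𝓝 0)) ∨
  ∃ (E : Set ℂ) (Z : ℕ → (K →L[ℂ] K)), NullSet E ∧
    (∀ n, Z n ∈ unitary (K →L[ℂ] K) ∧ spectrum ℂ (Z n) ⊆ E) ∧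
    ((∀ i : ℕ, Tendsto (fun n : ℕ => ‖π ((⇑α)^[n + i] y) - Z n ^ i * π ((⇑α)^[n] y)‖) atTop (𝓝 0)) ∨
      ((∀ n i : ℕ, IsCompactOperator (π ((⇑α)^[n + i] y) - Z n ^ i * π ((⇑α)^[n] y))) ∧ FiniteOrbit α π))

end defs

/-- disjointness strongly in all representations -/
def StronglyDisjoint (h : ℕ → ℂ) {A : Type} [NonUnitalCStarAlgebra A] (α : A →⋆ₙₐ[ℂ] A) (x : A) : Prop :=
  ∀ (K : Type) [NormedAddCommGroup K] [InnerProductSpace ℂ K] [CompleteSpace K]
    (π : A →⋆ₙₐ[ℂ] (K →L[ℂ] K)) (ξ : K),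
    Tendsto (fun N : ℕ => (1 / (N : ℂ)) • ∑ n ∈ Icc 1 N, h n • π ((⇑α)^[n] x) ξ) atTop (𝓝 0)

/-- disjointness for all bounded functionals, in particular all states -/
def FunctionalsDisjoint (h : ℕ → ℂ) {A : Type} [NonUnitalCStarAlgebra A] (α : A →⋆ₙₐ[ℂ] A) (x : A) : Prop :=
  ∀ ρ : A →L[ℂ] ℂ,
    Tendsto (fun N : ℕ => (1 / (N : ℂ)) * ∑ n ∈ Icc 1 N, h n * ρ ((⇑α)^[n] x)) atTop (𝓝 0)

/-- **Theorem.** If, for each irreducible representation `π` of `A`, the element `x` is in the closed linear span of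
the elements which are elementary for `π`, then the sequences `ρ(αⁿ x)` are disjoint from the Möbius and the
Liouville function, for all states `ρ`. -/
theorem result (h : ℕ → ℂ) (hh : h = mu ∨ h = lam) (A : Type) [NonUnitalCStarAlgebra A] (α : A →⋆ₙₐ[ℂ] A) (x : A)
    (hx : ∀ (K : Type) [NormedAddCommGroup K] [InnerProductSpace ℂ K] [CompleteSpace K]
      (π : A →⋆ₙₐ[ℂ] (K →L[ℂ] K)), Irreducible π →
        x ∈ closure (Submodule.span ℂ {y : A | Elementary α π y} : Set A)) :
    StronglyDisjoint h α x ∧ FunctionalsDisjoint h α x := by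
  rcases hh with rfl | rfl
  · exact Run7.h896.CF.main2 Pool.Agent.Run7.h172.Nls.muC_mul Pool.Agent.Run7.h172.Nls.muC_expo
      Pool.Agent.Run7.h172.Nls.muC_sup α x hx
  · exact Run7.h896.CF.main2 Pool.Agent.Run7.h172.Nls.lamC_mul Pool.Agent.Run7.h172.Nls.lamC_expo
      Pool.Agent.Run7.h172.Nls.lamC_sup α x hx

end Pool.Agent.Results.MP_7a8f48_an.CompactFibres
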