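import Pool.Agent.Run7.h190.Sysm

/-!
# Möbius disjointness of endomorphisms of C*-algebras generated by unitaries with nilpotent
difference groups

The main steps are in the files `Pool.Agent.Run7.h190.*`. They use the starting files
`Pool.Agent.TH261.AB` and `Pool.Agent.TH261.NP`.
-/

set_option autoImplicit false

open Filter Topology

namespace Pool.Agent.Results.MP_7a8f48_an.NilpotentUnitaries

/-- the Möbius function with complex values -/
noncomputable def mu (n : ℕ) : ℂ := ((ArithmeticFunction.moebius n : ℤ) : ℂ)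

section defs

variable {W : Type} [CStarAlgebra W]

/-- `w` is an eigenvector of `γ`, with an eigenvalue of modulus one -/
def Eigenvector (γ : W →⋆ₐ[ℂ] W) (w : W) : Prop := ∃ l : ℂ, ‖l‖ = 1 ∧ γ w = l • w

/-- the map `h ↦ h* γᵐ(h)` -/
def diff (γ : W →⋆ₐ[ℂ] W) (m : ℕ) (h : W) : W := star h * (γ^[m]) h

/-- for some `m > 0` and some `k` the `k`-th iterate of the map `h ↦ h* γᵐ(h)` maps `g` to `1` -/
def QuasiUnipotent (γ : W →⋆ₐ[ℂ] W) (g : W) : Prop :=
  ∃ m : ℕ, 0 < m ∧ ∃ k : ℕ, ((diff γ m)^[k]) g = 1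

/-- The unitary `g` is tame for `γ`: there are a nilpotent group `N` of unitaries with `γ(N) ⊆ N`,
which is generated by its quasi-unipotent elements, and a number `m > 0` with `g* γᵐ(g) ∈ N`. -/
def Tame (γ : W →⋆ₐ[ℂ] W) (g : W) : Prop :=
  g ∈ unitary W ∧ ∃ N : Subgroup (unitary W), Group.IsNilpotent N ∧
    (∀ x ∈ N, ∃ y ∈ N, (y : W) = γ x) ∧
    Subgroup.closure {x | x ∈ N ∧ QuasiUnipotent γ (x : W)} = N ∧
    ∃ m : ℕ, 0 < m ∧ ∃ y ∈ N, (y : W) = diff γ m g

/-- the products `v * y * w` with `y` in `S` and eigenvectors `v`, `w` of `γ` span a dense subspace -/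
def Generates (γ : W →⋆ₐ[ℂ] W) (S : Set W) : Prop :=
  (Submodule.span ℂ {x : W | ∃ y ∈ S, ∃ v w, Eigenvector γ v ∧ Eigenvector γ w ∧
    x = v * y * w}).topologicalClosure = ⊤

/-- Möbius disjointness of the orbits, in the strong operator topology of all representations -/
def StronglyDisjoint (γ : W →⋆ₐ[ℂ] W) : Prop :=
  ∀ (x : W) (K : Type) [NormedAddCommGroup K] [InnerProductSpace ℂ K] [CompleteSpace K]
    (π : W →⋆ₐ[ℂ] (K →L[ℂ] K)) (ξ : K),
    Tendsto (fun N : ℕ => (1 / (N : ℂ)) • ∑ n ∈ Finset.Icc 1 N, mu n • π ((γ^[n]) x) ξ) atTop (𝓝 0)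

/-- Möbius disjointness for the products of the values of any number of bounded functionals along
any orbits; for `r = 1` this is the Möbius disjointness of the problem, for all bounded functionals -/
def FunctionalsDisjoint (γ : W →⋆ₐ[ℂ] W) : Prop :=
  ∀ (r : ℕ) (ρ : Fin r → (W →L[ℂ] ℂ)) (x : Fin r → W),
    Tendsto (fun N : ℕ => (1 / (N : ℂ)) * ∑ n ∈ Finset.Icc 1 N,
      mu n * ∏ i, ρ i ((γ^[n]) (x i))) atTop (𝓝 0)

/-- Möbius disjointness, with all continuous functions `f` and all points, of all the compact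
systems of functionals: a self-map `T` of a compact space `X` whose points are separated by the
values `ρ i x a` of bounded functionals `ρ i x` on `W`, `i ∈ I`, which are continuous in `x`, with
`ρ i (T x) = ρ i x ∘ γ`. For example `X` is the state space of `W` with the weak* topology and
`T ρ = ρ ∘ γ`. -/
def SystemsDisjoint (γ : W →⋆ₐ[ℂ] W) : Prop :=
  ∀ (X : Type) [TopologicalSpace X] [CompactSpace X] (T : X → X) (I : Type)
    (ρ : I → X → (W →L[ℂ] ℂ)), (∀ i a, Continuous fun x => ρ i x a) →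
    (∀ i x a, ρ i (T x) a = ρ i x (γ a)) → (∀ x y, x ≠ y → ∃ i a, ρ i x a ≠ ρ i y a) →
    ∀ (f : C(X, ℂ)) (x : X), Tendsto (fun N : ℕ => (1 / (N : ℂ)) *
      ∑ n ∈ Finset.Icc 1 N, mu n * f ((T^[n]) x)) atTop (𝓝 0)

/-- the three forms of Möbius disjointness -/
def Disjoint3 (γ : W →⋆ₐ[ℂ] W) : Prop :=
  StronglyDisjoint γ ∧ FunctionalsDisjoint γ ∧ SystemsDisjoint γ

/-- `α` is Möbius disjoint in the three forms, and so is each system `(B, β)` which is generated
by an equivariant image of `(A, α)` and eigenvectors of `β`, and each system `(V, δ)` which embeds in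
such a `(B, β)`. -/
def AllDisjoint {A : Type} [CStarAlgebra A] (α : A →⋆ₐ[ℂ] A) : Prop :=
  Disjoint3 α ∧
  ∀ (B : Type) [CStarAlgebra B] (β : B →⋆ₐ[ℂ] B) (ι : A →⋆ₐ[ℂ] B),
    (∀ a, β (ι a) = ι (α a)) → Generates β (Set.range ι) →
    Disjoint3 β ∧
    ∀ (V : Type) [CStarAlgebra V] (δ : V →⋆ₐ[ℂ] V) (κ : V →⋆ₐ[ℂ] B), Function.Injective κ →
      (∀ v, κ (δ v) = β (κ v)) → Disjoint3 δ

end defs

open Pool.Agent.Helper188.NCM Pool.Agent.TH261.AB Pool.Agent.TH261.NP Run7.h190.S Run7.h190.G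

section proofs

variable {U : Type} [CStarAlgebra U]

theorem De_coe (α : U →⋆ₐ[ℂ] U) (m : ℕ) (g : unitary U) :
    ((De ((sg α)^[m]) g : unitary U) : U) = diff α m (g : U) := by
  rw [De, diff, Submonoid.coe_mul, sg_iter]
  rfl

theorem De_iter (α : U →⋆ₐ[ℂ] U) (m k : ℕ) (g : unitary U) :
    (((De ((sg α)^[m]))^[k] g : unitary U) : U) = ((diff α m)^[k]) (g : U) := by
  induction k generalizing g with
  | zero => rfl
  | succ k ih => rw [Function.iterate_succ_apply, Function.iterate_succ_apply, ih, De_coe]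

theorem tu_of_tame {α : U →⋆ₐ[ℂ] U} {g : U} (h : Tame α g) : TU α g := by
  obtain ⟨hg, N, hN, hα, hgen, m, hm, y, hy, hyg⟩ := h
  have hqu : ∀ x : unitary U, QuasiUnipotent α (x : U) → QU (sg α) x := by
    rintro x ⟨m, hm, k, hk⟩
    exact ⟨m, hm, k, Subtype.ext (by rw [De_iter, hk]; rfl)⟩
  have hσ : ∀ x ∈ N, sg α x ∈ N := by
    intro x hx
    obtain ⟨z, hz, hzx⟩ := hα x hx
    have : sg α x = z := Subtype.ext hzx.symm
    rw [this]; exact hz
  have hD : De ((sg α)^[m]) (⟨g, hg⟩ : unitary U) ∈ N := by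
    have : De ((sg α)^[m]) (⟨g, hg⟩ : unitary U) = y := Subtype.ext (by rw [De_coe, hyg])
    rw [this]; exact hy
  obtain ⟨M, hM, h1⟩ := TN.of_qu hN hσ (fun x hx => by
    have h2 : x ∈ Subgroup.closure {x | x ∈ N ∧ QuasiUnipotent α (x : U)} := by rw [hgen]; exact hx
    refine Subgroup.closure_mono ?_ h2
    rintro z ⟨hz, hq⟩
    exact ⟨hz, hqu z hq⟩) hm hD
  exact ⟨⟨g, hg⟩, rfl, M, hM, h1⟩

theorem mu_eq (n : ℕ) : mu n = mob n := rfl

theorem sum_eq {K : Type*} [NormedAddCommGroup K] [NormedSpace ℂ K] {a : ℕ → K}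
    (h : Tendsto (vav fun n => mob n • a n) atTop (𝓝 0)) :
    Tendsto (fun N : ℕ => (1 / (N : ℂ)) • ∑ n ∈ Finset.Icc 1 N, mu n • a n) atTop (𝓝 0) :=
  vav_Icc (a := fun n => mob n • a n) (by simp [mob]) h

theorem ext_functional {V : Type} [CStarAlgebra V] (κ : V →⋆ₐ[ℂ] U) (hκ : Function.Injective κ)
    (φ : V →L[ℂ] ℂ) : ∃ ψ : U →L[ℂ] ℂ, ∀ x, ψ (κ x) = φ x := by
  have hiso : ∀ x : V, ‖κ x‖ = ‖x‖ := fun x => NonUnitalStarAlgHom.norm_map κ hκ x
  let κl : V →ₗᵢ[ℂ] U := ⟨κ.toAlgHom.toLinearMap, hiso⟩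
  let e := κl.equivRange
  let p : Submodule ℂ U := LinearMap.range κl.toLinearMap
  obtain ⟨ψ, hψ, -⟩ := exists_extension_norm_eq p (φ.comp
    (e.symm.toContinuousLinearEquiv : p →L[ℂ] V))
  refine ⟨ψ, fun x => ?_⟩
  have := hψ (e x)
  have h2 : ((e x : p) : U) = κ x := rfl
  rw [h2] at this
  rw [this]
  simp

/-- products of functionals, lists -/
def Multi (γ : U →⋆ₐ[ℂ] U) : Prop := ∀ L : List ((U →L[ℂ] ℂ) × U),
  Tendsto (vav fun n => mob n * (L.map fun p => p.1 ((γ^[n]) p.2)).prod) atTop (𝓝 0)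

theorem multi_embed {V : Type} [CStarAlgebra V] {β : U →⋆ₐ[ℂ] U} (h : Multi β) (δ : V →⋆ₐ[ℂ] V)
    (κ : V →⋆ₐ[ℂ] U) (hκ : Function.Injective κ) (hδ : ∀ v, κ (δ v) = β (κ v)) : Multi δ := by
  have hn : ∀ (n : ℕ) v, κ ((δ^[n]) v) = (β^[n]) (κ v) := by
    intro n
    induction n with
    | zero => intro v; rfl
    | succ n ih =>
      intro v
      rw [Function.iterate_succ_apply', Function.iterate_succ_apply', hδ, ih]
  choose ψ hψ using ext_functional κ hκ
  intro L
  refine (h (L.map fun p => (ψ p.1, κ p.2))).congr fun N => ?_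
  rw [vav, vav]
  congr 1
  refine Finset.sum_congr rfl fun n _ => ?_
  rw [List.map_map]
  congr 2
  refine List.map_congr_left fun p _ => ?_
  simp only [Function.comp_apply]
  rw [← hn, hψ]

theorem disjoint3_of {γ : U →⋆ₐ[ℂ] U} (h1 : ∀ x, Good γ x) (h2 : Multi γ) : Disjoint3 γ := by
  refine ⟨fun x K _ _ _ π ξ => sum_eq (h1 x K π ξ), fun r ρ x => ?_,
    fun X _ _ T I ρ hc hρ hs f x => ?_⟩
  · have h3 := sum_eq (K := ℂ) (h2 (List.ofFn fun i => (ρ i, x i)))
    refine h3.congr fun N => ?_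
    rw [smul_eq_mul]
    congr 1
    refine Finset.sum_congr rfl fun n _ => ?_
    rw [smul_eq_mul, List.map_ofFn, List.prod_ofFn]
    rfl
  · exact sum_eq (K := ℂ) (top_of_multi γ h2 T ρ hc hρ hs f x)

theorem allDisjoint_of_tame {α : U →⋆ₐ[ℂ] U} (h : Generates α {g | Tame α g}) : AllDisjoint α := by
  have key : ∀ (B : Type) [CStarAlgebra B] (β : B →⋆ₐ[ℂ] B) (ι : U →⋆ₐ[ℂ] B),
      (∀ a, β (ι a) = ι (α a)) → Generates β (Set.range ι) → (∀ x, Good β x) ∧ Multi β := by
    intro B _ β ι hι hgen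
    have hσ : ∀ g ∈ {g | Tame α g}, TU α g := fun g hg => tu_of_tame hg
    exact ⟨Run7.h190.S.good_all hσ h β ι hι hgen, Run7.h190.S.multi hσ h β ι hι hgen⟩
  refine ⟨?_, fun B _ β ι hι hgen => ?_⟩
  · have h1 : Generates α (Set.range (StarAlgHom.id ℂ U)) := by
      have h2 : Submodule.span ℂ {x : U | ∃ y ∈ {g | Tame α g}, ∃ v w, Eigenvector α v ∧
          Eigenvector α w ∧ x = v * y * w} ≤ Submodule.span ℂ {x : U |
          ∃ y ∈ Set.range (StarAlgHom.id ℂ U), ∃ v w, Eigenvector α v ∧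
          Eigenvector α w ∧ x = v * y * w} := by
        refine Submodule.span_mono ?_
        rintro x ⟨y, -, v, w, hv, hw, rfl⟩
        exact ⟨y, ⟨y, rfl⟩, v, w, hv, hw, rfl⟩
      have h3 := Submodule.topologicalClosure_mono h2
      have h4 : (Submodule.span ℂ {x : U | ∃ y ∈ {g | Tame α g}, ∃ v w, Eigenvector α v ∧
          Eigenvector α w ∧ x = v * y * w}).topologicalClosure = ⊤ := h
      rw [h4, top_le_iff] at h3
      exact h3
    obtain ⟨h2, h3⟩ := key U α (StarAlgHom.id ℂ U) (fun a => rfl) h1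
    exact disjoint3_of h2 h3
  · obtain ⟨h2, h3⟩ := key B β ι hι hgen
    exact ⟨disjoint3_of h2 h3, fun V _ δ κ hκ hδ =>
      disjoint3_of (Good.embed h2 δ κ hκ hδ) (multi_embed h3 δ κ hκ hδ)⟩

end proofs

/-- **Möbius disjointness of endomorphisms of C*-algebras generated by unitaries with nilpotent
difference groups.**

Let `α` be an endomorphism of the unital C*-algebra `U`. Call a unitary `g` tame if
`g* αᵐ(g) ∈ N` for some `m > 0` and some nilpotent group `N` of unitaries with `α(N) ⊆ N`, of any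
class, which is generated by its quasi-unipotent elements. If the products `v * g * w`, where `g` is
tame and `v`, `w` are eigenvectors of `α`, span a dense subspace of `U`, then `α` is Möbius
disjoint: in the strong operator topology of every representation, for the products of any number
of bounded functionals, and for all continuous functions on all compact systems of functionals (such
as the state space); and so is each system generated by an equivariant image of `(U, α)` and
eigenvectors, and each subsystem of such a system. -/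
theorem result (U : Type) [CStarAlgebra U] (α : U →⋆ₐ[ℂ] U) (h : Generates α {g | Tame α g}) :
    AllDisjoint α :=
  allDisjoint_of_tame h

end Pool.Agent.Results.MP_7a8f48_an.NilpotentUnitaries
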