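import Pool.Agent.Run7.h896.RE.Main2

/-!
# Disjointness from the Möbius function for C*-dynamical systems whose invariant states have relative eigenvectors
with eigenvalues in the von Neumann algebra, of null spectrum (MP_7a8f48_an)

The hypothesis concerns the GNS representations of the invariant states only, and does not involve the Möbius
function. The eigenvalue of a relative eigenvector is an operator in the von Neumann algebra generated by the
representation, and not a number; its spectrum is null, but may be uncountable, of any dimension. The conclusion is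
in norm, uniform in the phase, and holds in almost all short windows.
-/

set_option autoImplicit false

open Filter Topology Finset

namespace Pool.Agent.Results.MP_7a8f48_an.RelativeEigenoperators

/-- the Möbius function -/
noncomputable def mu (n : ℕ) : ℂ := ((ArithmeticFunction.moebius n : ℤ) : ℂ)

/-- the Liouville function -/
noncomputable def lam (n : ℕ) : ℂ := (-1) ^ ArithmeticFunction.cardFactors n

section defs

variable {A : Type} [CStarAlgebra A]
variable {K : Type} [NormedAddCommGroup K] [InnerProductSpace ℂ K] [CompleteSpace K]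

/-- `(π, U, ξ)` is a covariant cyclic representation of `(A, α)`: `U` is an isometry with `U π(a) = π(α a) U` and
`U ξ = ξ`, and `π(A) ξ` is dense. These are the GNS representations of the invariant positive functionals
`a ↦ ⟨ξ, π(a) ξ⟩`. -/
def CovariantCyclic (α : A →⋆ₐ[ℂ] A) (π : A →⋆ₐ[ℂ] (K →L[ℂ] K)) (U : K →ₗᵢ[ℂ] K) (ξ : K) : Prop :=
  (∀ a η, U (π a η) = π (α a) (U η)) ∧ U ξ = ξ ∧ DenseRange fun a => π a ξ

/-- the numbers `t` with `exp(2 π i t)` in the spectrum of `Z` form a Lebesgue null set -/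
def NullSpectrum (Z : K →L[ℂ] K) : Prop :=
  MeasureTheory.volume {t : ℝ | Complex.exp (2 * Real.pi * Complex.I * t) ∈ spectrum ℂ Z} = 0

/-- `Z` commutes with the commutant of `π(A)`, that is, `Z` is in the von Neumann algebra generated by `π(A)` -/
def InBicommutant (π : A →⋆ₐ[ℂ] (K →L[ℂ] K)) (Z : K →L[ℂ] K) : Prop :=
  ∀ T : K →L[ℂ] K, (∀ a, T * π a = π a * T) → T * Z = Z * T

/-- `y` is a relative eigenvector: for some unitary `Z` in the bicommutant of `π(A)`, with null spectrum, one has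
`Uⁿ y = Zⁿ y` for all `n` -/
def RelativeEigenvector (π : A →⋆ₐ[ℂ] (K →L[ℂ] K)) (U : K →ₗᵢ[ℂ] K) (y : K) : Prop :=
  ∃ Z : K →L[ℂ] K, Z ∈ unitary (K →L[ℂ] K) ∧ NullSpectrum Z ∧ InBicommutant π Z ∧
    ∀ n : ℕ, (⇑U)^[n] y = (Z ^ n) y

/-- the sum of `h(m) e(m θ) αᵐ(x)` over the `m` in `S`, where `e(t) = exp(2 π i t)` -/
noncomputable def orbitSum (h : ℕ → ℂ) (α : A →⋆ₐ[ℂ] A) (θ : ℝ) (S : Finset ℕ) (x : A) : A :=
  ∑ m ∈ S, (h m * Complex.exp (2 * Real.pi * Complex.I * (m * θ : ℝ))) • (⇑α)^[m] x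

/-- The orbit of `x` is disjoint from `h` in norm, uniformly in the phase: the sums over the windows
`(n, n + H]`, for `n < N`, are small in norm on average, and the long sums are small in norm. -/
def UniformlyDisjoint (h : ℕ → ℂ) (α : A →⋆ₐ[ℂ] A) (x : A) : Prop :=
  ∀ ε : ℝ, 0 < ε →
    (∃ H0 : ℕ, ∀ H ≥ H0, ∀ N ≥ H, ∀ θ : ℝ,
      ∑ n ∈ range N, ‖orbitSum h α θ (Ioc n (n + H)) x‖ ≤ ε * H * N) ∧
    ∃ N0 : ℕ, ∀ N ≥ N0, ∀ θ : ℝ, ‖orbitSum h α θ (Icc 1 N) x‖ ≤ ε * N

/-- disjointness for all bounded functionals, in particular all states -/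
def FunctionalsDisjoint (h : ℕ → ℂ) (α : A →⋆ₐ[ℂ] A) (x : A) : Prop :=
  ∀ ρ : A →L[ℂ] ℂ,
    Tendsto (fun N : ℕ => (1 / (N : ℂ)) * ∑ n ∈ Icc 1 N, h n * ρ ((⇑α)^[n] x)) atTop (𝓝 0)

end defs

/-- **Theorem.** If, for each covariant cyclic representation `(π, U, ξ)`, the vector `π(x) ξ` is in the closed
linear span of the relative eigenvectors, then the orbit of `x` is disjoint from the Möbius and the Liouville
function. -/
theorem result (h : ℕ → ℂ) (hh : h = mu ∨ h = lam) (A : Type) [CStarAlgebra A] (α : A →⋆ₐ[ℂ] A) (x : A)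
    (hx : ∀ (K : Type) [NormedAddCommGroup K] [InnerProductSpace ℂ K] [CompleteSpace K]
      (π : A →⋆ₐ[ℂ] (K →L[ℂ] K)) (U : K →ₗᵢ[ℂ] K) (ξ : K), CovariantCyclic α π U ξ →
        π x ξ ∈ closure (Submodule.span ℂ {y : K | RelativeEigenvector π U y} : Set K)) :
    UniformlyDisjoint h α x ∧ FunctionalsDisjoint h α x := by
  have hyp : Run7.h896.RE.Hyp α x := fun K _ _ _ π U ξ h1 h2 h3 => hx K π U ξ ⟨h1, h2, h3⟩
  rcases hh with rfl | rfl
  · have h1 := Run7.h896.RE.windows Pool.Agent.Run7.h172.Nls.muC_mul Pool.Agent.Run7.h172.Nls.muC_expo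
      Run7.h896.RE.mu_finite α x hyp
    have h2 := Run7.h896.RE.long_of_win Pool.Agent.Run7.h172.Nls.muC_mul.1 α x h1
    exact ⟨fun ε hε => ⟨h1 ε hε, h2 ε hε⟩, Run7.h896.RE.func_of_long α x h2⟩
  · have h1 := Run7.h896.RE.windows Pool.Agent.Run7.h172.Nls.lamC_mul Pool.Agent.Run7.h172.Nls.lamC_expo
      Run7.h896.RE.lam_finite α x hyp
    have h2 := Run7.h896.RE.long_of_win Pool.Agent.Run7.h172.Nls.lamC_mul.1 α x h1
    exact ⟨fun ε hε => ⟨h1 ε hε, h2 ε hε⟩, Run7.h896.RE.func_of_long α x h2⟩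

end Pool.Agent.Results.MP_7a8f48_an.RelativeEigenoperators
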