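import Pool.Agent.Results.MP_7a8f48_an.NilpotentUnitaries
import Pool.Agent.Run7.h190.Rep

/-!
# Zero entropy automorphisms of group C*-algebras of virtually solvable groups

The main steps are in the files `Pool.Agent.Run7.h190.*`: `LV`, `LV2`, `LV3`, `LV4` (locally virtually
nilpotent groups), `Mdl`, `Lqn` (modules over the integral polynomials), `Ent`, `Rep` (lower bounds for
the entropy).
-/

set_option autoImplicit false

open Filter Topology

namespace Pool.Agent.Results.MP_7a8f48_an.SolvableGroups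

section defs

variable {U : Type} [CStarAlgebra U] {G : Type} [Group G]

/-- the map `V` on `G` extends to a *-homomorphism of `U` -/
def Extends {W : Type} [CStarAlgebra W] (u : G →* unitary U) (V : G → W) : Prop :=
  ∃ π : U →⋆ₐ[ℂ] W, ∀ g, π (u g) = V g

/-- `U` is the full group C*-algebra of `G`, with the canonical unitaries `u g`: their span is dense,
and each representation `V` of `G` on a Hilbert space by isometries (and so by unitaries) extends
to `U` -/
def FullGroupAlgebra (u : G →* unitary U) : Prop :=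
  (Submodule.span ℂ (Set.range fun g => (u g : U))).topologicalClosure = ⊤ ∧
  ∀ (H : Type) [NormedAddCommGroup H] [InnerProductSpace ℂ H] [CompleteSpace H]
    (V : G → (H →L[ℂ] H)), V 1 = 1 → (∀ g h, V (g * h) = V g * V h) → (∀ g ξ, ‖V g ξ‖ = ‖ξ‖) →
    Extends u V

/-- a contractive linear map -/
def Contraction {A B : Type} [NormedAddCommGroup A] [NormedSpace ℂ A] [NormedAddCommGroup B]
    [NormedSpace ℂ B] (f : A → B) : Prop :=
  IsLinearMap ℂ f ∧ ∀ x, ‖f x‖ ≤ ‖x‖

/-- approximation of `π` on `Ω`, up to `δ`, through `M` by contractive linear maps -/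
def Through (M : Type) [CStarAlgebra M] {W : Type} [CStarAlgebra W] (π : U →⋆ₐ[ℂ] W) (Ω : Set U)
    (δ : ℝ) : Prop :=
  ∃ (φ : U → M) (ψ : M → W), Contraction φ ∧ Contraction ψ ∧ ∀ a ∈ Ω, ‖ψ (φ a) - π a‖ < δ

/-- the `k × k` matrices, as the operators on the Hilbert space of dimension `k` -/
abbrev Mat (k : ℕ) : Type := EuclideanSpace ℂ (Fin k) →L[ℂ] EuclideanSpace ℂ (Fin k)

/-- Zero entropy, with contractive linear maps in the place of completely positive contractions:
there is an injective *-homomorphism `π` of `U` into a C*-algebra `W` such that, for all finite `Ω`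
and `δ, ε > 0`, for all large `N` the map `π` is approximated up to `δ` on
`Ω ∪ α Ω ∪ ⋯ ∪ α^{N-1} Ω` through the matrices of a size `k ≤ exp (ε N)`. Zero Voiculescu-Brown
entropy implies it, with `W` the operators on a Hilbert space. -/
def ZeroEntropy (α : U →⋆ₐ[ℂ] U) : Prop :=
  ∃ (W : Type) (_ : CStarAlgebra W) (π : U →⋆ₐ[ℂ] W), Function.Injective π ∧
    ∀ Ω : Set U, Ω.Finite → ∀ δ > 0, ∀ ε > 0, ∀ᶠ N : ℕ in atTop,
      ∃ k : ℕ, (k : ℝ) ≤ Real.exp (ε * N) ∧
        Through (Mat k) π {x | ∃ a ∈ Ω, ∃ j < N, x = (α^[j]) a} δ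

/-- `α` maps `u g` to `χ(g) u (σ g)` -/
def Induced (u : G →* unitary U) (σ : G ≃* G) (χ : G →* Circle) (α : U →⋆ₐ[ℂ] U) : Prop :=
  ∀ g, α (u g) = (χ g : ℂ) • (u (σ g) : U)

/-- `σ` maps `R` onto `R`, and a power of `σ` maps the coset `g R` to itself, for each `g` -/
def PeriodicMod (σ : G ≃* G) (R : Subgroup G) : Prop :=
  (∀ x, σ x ∈ R ↔ x ∈ R) ∧ ∀ g, ∃ m : ℕ, 0 < m ∧ g⁻¹ * (σ^[m]) g ∈ R

end defs

open Pool.Agent.Results.MP_7a8f48_an.NilpotentUnitaries
open Run7.h190.G Run7.h190.V Run7.h190.M Run7.h190.E Pool.Agent.Helper86.NC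

section proofs

variable {U : Type} [CStarAlgebra U] {G : Type} [Group G]

theorem norm_unitary_le (w : unitary U) : ‖(w : U)‖ ≤ 1 := by
  rcases subsingleton_or_nontrivial U with h | h
  · rw [Subsingleton.elim (w : U) 0, norm_zero]; exact zero_le_one
  · rw [CStarRing.norm_coe_unitary]

theorem iter_u {σ : G ≃* G} {χ : G →* Circle} {u : G →* unitary U} {α : U →⋆ₐ[ℂ] U}
    (hα : Induced u σ χ α) (n : ℕ) (g : G) :
    ∃ c : Circle, (α^[n]) (u g : U) = (c : ℂ) • (u ((σ : G → G)^[n] g) : U) := by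
  induction n generalizing g with
  | zero => exact ⟨1, by simp⟩
  | succ n ih =>
    obtain ⟨c, hc⟩ := ih (σ g)
    refine ⟨χ g * c, ?_⟩
    have hsm : ∀ (m : ℕ) (l : ℂ) (x : U), (α^[m]) (l • x) = l • (α^[m]) x := by
      intro m
      induction m with
      | zero => intro l x; rfl
      | succ m ihm => intro l x; rw [Function.iterate_succ_apply, map_smul, ihm]; rfl
    rw [Function.iterate_succ_apply, hα g, hsm, hc, Function.iterate_succ_apply, smul_smul,
      Circle.coe_mul]

/-- zero entropy excludes dissociate orbits -/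
theorem nx_of_zeroEntropy {σ : G ≃* G} {χ : G →* Circle} {u : G →* unitary U} {α : U →⋆ₐ[ℂ] U}
    (hu : FullGroupAlgebra u) (hα : Induced u σ χ α) (hent : ZeroEntropy α) : NX G σ := by
  intro H₁ M _ φ h s hw hs hd
  obtain ⟨W, _, π, hπ, hE⟩ := hent
  have hs' : (0 : ℝ) < s := by exact_mod_cast hs
  have hE1 := hE {(u h : U)} (Set.finite_singleton _) (1 / 4) (by norm_num) (1 / (384 * s))
    (by positivity)
  rw [eventually_atTop] at hE1
  obtain ⟨N₀, hN₀⟩ := hE1
  set r := N₀ + 1 with hr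
  set q : ℕ := 2 ^ r with hq
  have hq2 : N₀ + 2 ≤ q := by
    rw [hq, hr]
    exact Nat.lt_two_pow_self
  have hN : N₀ ≤ 384 * q * s := by nlinarith
  obtain ⟨k, hk, φ', ψ, ⟨hφl, hφ'⟩, ⟨hψl, hψ⟩, happ⟩ := hN₀ _ hN
  have hk' : (k : ℝ) ≤ Real.exp q := by
    refine hk.trans (le_of_eq ?_)
    congr 1
    push_cast
    field_simp
  let B : Fin (384 * q) → Mat k := fun j => φ' (u ((σ : G → G)^[s * j] h) : U)
  have hB : ∀ j, ‖B j‖ ≤ 1 := by
    intro j
    exact (hφ' _).trans (norm_unitary_le _)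
  have hψB : ∀ j : Fin (384 * q), ‖ψ (B j) - π (u ((σ : G → G)^[s * j] h) : U)‖ ≤ 1 / 4 := by
    intro j
    obtain ⟨c, hc⟩ := iter_u hα (s * (j : ℕ)) h
    have hlt : s * (j : ℕ) < 384 * q * s := by
      rw [mul_comm]
      exact Nat.mul_lt_mul_of_pos_right j.2 hs
    have h1 := happ ((α^[s * (j : ℕ)]) (u h : U)) ⟨_, rfl, _, hlt, rfl⟩
    rw [hc, hφl.map_smul, hψl.map_smul, map_smul, ← smul_sub, norm_smul, Circle.norm_coe,
      one_mul] at h1
    exact h1.le
  have hlow : ∀ z : Fin (384 * q) → Bool, 96 * (q : ℝ) ≤ ‖∑ j, sg (z j) • B j‖ := by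
    intro z
    obtain ⟨K, hK⟩ := lower_dis H₁ φ (fun j => (σ : G → G)^[s * j] h) hw hd (384 * q) z
    obtain ⟨V, hV⟩ := hu.2 (L2 (G ⧸ K))
      (fun g => ((pr G (G ⧸ K) g : unitary (L2 (G ⧸ K) →L[ℂ] L2 (G ⧸ K))) :
        L2 (G ⧸ K) →L[ℂ] L2 (G ⧸ K))) (by simp) (fun g g' => by simp)
      (fun g ξ => (permU (MulAction.toPerm g)).norm_map ξ)
    set w : U := ∑ j : Fin (384 * q), sg (z j) • (u ((σ : G → G)^[s * j] h) : U) with hw'
    have hreal : ∀ (W : Type) [CStarAlgebra W] (θ : U →⋆ₐ[ℂ] W) (c : ℝ) (x : U),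
        θ (c • x) = c • θ x := by
      intro W _ θ c x
      rw [← Complex.coe_smul, map_smul, Complex.coe_smul]
    have h1 : V w = ∑ j : Fin (384 * q), sg (z j) •
        ((pr G (G ⧸ K) ((σ : G → G)^[s * j] h) : unitary (L2 (G ⧸ K) →L[ℂ] L2 (G ⧸ K))) :
          L2 (G ⧸ K) →L[ℂ] L2 (G ⧸ K)) := by
      rw [hw', map_sum]
      refine Finset.sum_congr rfl fun j _ => ?_
      rw [hreal _ V, hV]
      rfl
    have h2 : 192 * (q : ℝ) ≤ ‖w‖ := by
      have h3 : ‖V w‖ ≤ ‖w‖ := NonUnitalStarAlgHom.norm_apply_le V w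
      refine le_trans ?_ h3
      rw [h1]
      refine le_trans (le_of_eq ?_) hK
      push_cast
      ring
    have h4 : ‖π w‖ = ‖w‖ := NonUnitalStarAlgHom.norm_map π hπ w
    have h5 : ψ (∑ j, sg (z j) • B j) - π w =
        ∑ j, sg (z j) • (ψ (B j) - π (u ((σ : G → G)^[s * j] h) : U)) := by
      have h50 : ψ (∑ j, sg (z j) • B j) = ∑ j, ψ (sg (z j) • B j) := map_sum hψl.mk' _ _
      rw [h50, hw', map_sum, ← Finset.sum_sub_distrib]
      refine Finset.sum_congr rfl fun j _ => ?_
      rw [hreal _ π, smul_sub, ← Complex.coe_smul (sg (z j)) (B j), hψl.map_smul, Complex.coe_smul]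
    have h6 : ‖ψ (∑ j, sg (z j) • B j) - π w‖ ≤ 96 * q := by
      rw [h5]
      refine (norm_sum_le _ _).trans ?_
      have h7 : ∀ j ∈ (Finset.univ : Finset (Fin (384 * q))),
          ‖sg (z j) • (ψ (B j) - π (u ((σ : G → G)^[s * j] h) : U))‖ ≤ 1 / 4 := by
        intro j _
        rw [norm_smul]
        have : ‖sg (z j)‖ = 1 := by
          rw [sg]; split_ifs <;> norm_num
        rw [this, one_mul]
        exact hψB j
      refine (Finset.sum_le_sum h7).trans (le_of_eq ?_)
      rw [Finset.sum_const, Finset.card_univ, Fintype.card_fin, nsmul_eq_mul]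
      push_cast
      ring
    have h8 : ‖ψ (∑ j, sg (z j) • B j)‖ ≤ ‖∑ j, sg (z j) • B j‖ := hψ _
    have h9 : ‖π w‖ ≤ ‖ψ (∑ j, sg (z j) • B j)‖ + ‖ψ (∑ j, sg (z j) • B j) - π w‖ := by
      have := norm_sub_norm_le (π w) (ψ (∑ j, sg (z j) • B j))
      rw [norm_sub_rev] at this
      linarith
    linarith
  have hlarge := large (EuclideanSpace.basisFun (Fin k) ℂ) r q hq B hB hlow
  -- the contradiction
  have h1 : 2 * Real.exp q < (4 : ℝ) ^ q := by
    obtain ⟨q', hq'⟩ := Nat.exists_eq_add_of_le (show 2 ≤ q by omega)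
    rw [hq']
    push_cast
    have he := Real.exp_one_lt_d9
    have he0 := Real.exp_pos 1
    have h2 : Real.exp q' ≤ (4 : ℝ) ^ q' := by
      have : Real.exp q' = Real.exp 1 ^ q' := by rw [← Real.exp_nat_mul]; simp
      rw [this]
      exact pow_le_pow_left₀ he0.le (by linarith) q'
    have h3 : Real.exp 2 < 8 := by
      have : Real.exp 2 = Real.exp 1 ^ 2 := by rw [← Real.exp_nat_mul]; norm_num
      rw [this]
      nlinarith
    rw [Real.exp_add, pow_add]
    have h4 : (0 : ℝ) < 4 ^ q' := by positivity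
    have h5 : 0 < Real.exp q' := Real.exp_pos _
    nlinarith
  linarith

/-- the central unitaries -/
noncomputable def sc (U : Type) [CStarAlgebra U] : Circle →* unitary U where
  toFun c := ⟨algebraMap ℂ U c, by
    have h : (starRingEnd ℂ) (c : ℂ) * (c : ℂ) = 1 := by
      rw [Complex.conj_mul', Circle.norm_coe]; norm_num
    rw [Unitary.mem_iff, ← algebraMap_star_comm, ← map_mul, ← map_mul]
    refine ⟨?_, ?_⟩
    · rw [show (star (c : ℂ)) * c = 1 from h, map_one]
    · rw [mul_comm, show (star (c : ℂ)) * c = 1 from h, map_one]⟩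
  map_one' := by apply Subtype.ext; simp
  map_mul' a b := by apply Subtype.ext; simp

theorem sc_coe (c : Circle) : ((sc U c : unitary U) : U) = algebraMap ℂ U c := rfl

theorem sc_mul (c : Circle) (x : U) : ((sc U c : unitary U) : U) * x = (c : ℂ) • x := by
  rw [sc_coe, Algebra.smul_def]

theorem sc_comm (c : Circle) (w : unitary U) : sc U c * w = w * sc U c :=
  Subtype.ext (Algebra.commutes _ _)

/-- the elements of the group are tame -/
theorem tame_u {σ : G ≃* G} {χ : G →* Circle} {u : G →* unitary U} {α : U →⋆ₐ[ℂ] U}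
    (hα : Induced u σ χ α) (g : G)
    (h : ∃ m : ℕ, 0 < m ∧ ∃ L : Subgroup G, Group.IsNilpotent L ∧ (∀ x ∈ L, σ x ∈ L) ∧
      De ((σ : G → G)^[m]) g ∈ L ∧ ∀ x ∈ L, ∃ k : ℕ, (De ((σ : G → G)^[m]))^[k] x = 1) :
    Tame α (u g : U) := by
  obtain ⟨m, hm, L, hL, hσ, hg, hq⟩ := h
  let f : Circle × L →* unitary U :=
    { toFun := fun p => sc U p.1 * u p.2
      map_one' := by simp
      map_mul' := fun p p' => by
        simp only [Prod.fst_mul, Prod.snd_mul, map_mul, Subgroup.coe_mul]
        rw [mul_assoc, mul_assoc, ← mul_assoc (sc U p'.1), sc_comm p'.1 (u p.2), mul_assoc] }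
  have hf : ∀ (c : Circle) (x : L), ((f (c, x) : unitary U) : U) = (c : ℂ) • (u (x : G) : U) :=
    fun c x => sc_mul c _
  -- iterates of the map
  have hit : ∀ (c : Circle) (x : G), ∃ c' : Circle,
      diff α m ((c : ℂ) • (u x : U)) = (c' : ℂ) • (u (De ((σ : G → G)^[m]) x) : U) := by
    intro c x
    obtain ⟨c', hc'⟩ := iter_u hα m x
    have hsm : ∀ (m : ℕ) (l : ℂ) (x : U), (α^[m]) (l • x) = l • (α^[m]) x := by
      intro m
      induction m with
      | zero => intro l x; rfl
      | succ m ihm => intro l x; rw [Function.iterate_succ_apply, map_smul, ihm]; rfl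
    refine ⟨c', ?_⟩
    rw [diff, hsm, hc', star_smul, smul_mul_smul_comm, mul_smul_comm, smul_smul]
    have h1 : (starRingEnd ℂ) (c : ℂ) * (c : ℂ) = 1 := by
      rw [Complex.conj_mul', Circle.norm_coe]; norm_num
    have h2 : star (c : ℂ) * (c : ℂ) * (c' : ℂ) = (c' : ℂ) := by
      rw [show star (c : ℂ) * (c : ℂ) = 1 from h1, one_mul]
    rw [h2, De, map_mul, map_inv]
    rfl
  have hit2 : ∀ (k : ℕ) (c : Circle) (x : G), ∃ c' : Circle,
      (diff α m)^[k] ((c : ℂ) • (u x : U)) = (c' : ℂ) • (u ((De ((σ : G → G)^[m]))^[k] x) : U) := by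
    intro k
    induction k with
    | zero => intro c x; exact ⟨c, rfl⟩
    | succ k ih =>
      intro c x
      obtain ⟨c1, hc1⟩ := hit c x
      obtain ⟨c2, hc2⟩ := ih c1 (De ((σ : G → G)^[m]) x)
      exact ⟨c2, by rw [Function.iterate_succ_apply, hc1, hc2, Function.iterate_succ_apply]⟩
  refine ⟨(u g).2, f.range, ?_, ?_, ?_, m, hm, ?_⟩
  · exact Group.nilpotent_of_surjective f.rangeRestrict f.rangeRestrict_surjective
  · rintro _ ⟨⟨c, x⟩, rfl⟩
    refine ⟨f (c * χ x, ⟨σ x, hσ x x.2⟩), ⟨_, rfl⟩, ?_⟩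
    rw [hf, hf, map_smul, hα x, smul_smul, Circle.coe_mul]
  · apply le_antisymm
    · rw [Subgroup.closure_le]
      exact fun x hx => hx.1
    · rintro _ ⟨⟨c, x⟩, rfl⟩
      refine Subgroup.subset_closure ⟨⟨_, rfl⟩, m, hm, ?_⟩
      obtain ⟨k, hk⟩ := hq x x.2
      refine ⟨k + 1, ?_⟩
      obtain ⟨c', hc'⟩ := hit2 k c x
      rw [hf, Function.iterate_succ_apply', hc', hk, map_one]
      have hone : ∀ l : ℕ, (α^[l]) (1 : U) = 1 := by
        intro l
        induction l with
        | zero => rfl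
        | succ l ihl => rw [Function.iterate_succ_apply, map_one, ihl]
      have hsm : ∀ (m : ℕ) (l : ℂ) (x : U), (α^[m]) (l • x) = l • (α^[m]) x := by
        intro m
        induction m with
        | zero => intro l x; rfl
        | succ m ihm => intro l x; rw [Function.iterate_succ_apply, map_smul, ihm]; rfl
      have h1 : (starRingEnd ℂ) (c' : ℂ) * (c' : ℂ) = 1 := by
        rw [Complex.conj_mul', Circle.norm_coe]; norm_num
      have h2 : star (c' : ℂ) * (c' : ℂ) = 1 := h1
      show diff α m ((c' : ℂ) • (1 : U)) = 1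
      rw [diff, hsm, hone, star_smul, star_one, smul_mul_smul_comm, one_mul, h2, one_smul]
  · obtain ⟨c, hc⟩ := hit 1 g
    refine ⟨f (c, ⟨_, hg⟩), ⟨_, rfl⟩, ?_⟩
    rw [Circle.coe_one, one_smul] at hc
    rw [hf, hc]

end proofs

/-- **Zero entropy automorphisms of the group C*-algebras of virtually solvable groups are Möbius
disjoint.**

Let `G` be a group, `σ` an automorphism of `G` and `R` a solvable normal subgroup of `G` with
`σ(R) = R`, such that each coset `g R` is mapped to itself by a power of `σ` (for example `R` has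
finite index, and so `G` is virtually solvable). Let `α` be the automorphism `u g ↦ χ(g) u (σ g)` of the
full C*-algebra of `G`, where `χ` is a character of `G`. If the entropy of `α` is zero, then `α` is
Möbius disjoint: in the strong operator topology of every representation, for the products of any
number of bounded functionals, and for all continuous functions on all compact systems of
functionals (such as the state space); and so is each system generated by an equivariant image of
`(U, α)` and eigenvectors, and each subsystem of such a system. -/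
theorem result (G : Type) [Group G] (σ : G ≃* G) (R : Subgroup G) [R.Normal]
    (hR : Group.IsSolvable R) (hσ : PeriodicMod σ R) (χ : G →* Circle) (U : Type) [CStarAlgebra U]
    (u : G →* unitary U) (hu : FullGroupAlgebra u) (α : U →⋆ₐ[ℂ] U) (hα : Induced u σ χ α)
    (hent : ZeroEntropy α) : AllDisjoint α := by
  have hnx := nx_of_zeroEntropy hu hα hent
  have h1 : ∀ x ∈ R, σ x ∈ R := fun x hx => (hσ.1 x).2 hx
  have h2 : ∀ x ∈ R, σ.symm x ∈ R := by
    intro x hx
    refine (hσ.1 _).1 ?_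
    rwa [σ.apply_symm_apply]
  have htame : ∀ g : G, Tame α (u g : U) := fun g =>
    tame_u hα g (tame_of_nx σ hnx R hR h1 h2 g (hσ.2 g))
  refine allDisjoint_of_tame ?_
  have hone : Eigenvector α (1 : U) := ⟨1, by simp, by simp⟩
  have h3 : Submodule.span ℂ (Set.range fun g => (u g : U)) ≤ Submodule.span ℂ {x : U |
      ∃ y ∈ {g | Tame α g}, ∃ v w, Eigenvector α v ∧ Eigenvector α w ∧ x = v * y * w} := by
    refine Submodule.span_mono ?_
    rintro _ ⟨g, rfl⟩
    exact ⟨u g, htame g, 1, 1, hone, hone, by simp⟩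
  have h4 := Submodule.topologicalClosure_mono h3
  rw [hu.1, top_le_iff] at h4
  exact h4

end Pool.Agent.Results.MP_7a8f48_an.SolvableGroups
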